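import Pool.Agent.H92.EHD.TP
import Pool.Agent.H88.EQ.IE
import Pool.Agent.H60.EQD.A3
import Pool.Agent.H80.EQ.W9

/-! ehd_modules row EA3: the density of `tauH δ`. -/

set_option autoImplicit false

namespace Pool.Agent.H80.EHD

open scoped BigOperators ComplexConjugate ContDiff ComplexOrder
open MeasureTheory Pool.Agent.H92.EQ Pool.Agent.H92.EHD
open Pool.Agent.H88.EQ.IErow (ev_lin jac_lin nsq_eq nsq_pos nsq_unitary exists_unitary)

noncomputable section

section algebra

variable {N p : ℕ}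

/-- two slots -/
def L2 (S : (Fin p → Fin N) → (Fin p → Fin N) → ℂ) (A R : Matrix (Fin N) (Fin N) ℂ) : ℂ :=
  ∑ e : (Fin p ⊕ Fin 2) ≃ Fin N, ∑ e' : (Fin p ⊕ Fin 2) ≃ Fin N,
    ((Equiv.Perm.sign (e.trans e'.symm) : ℤ) : ℂ) *
      S (fun i => e (Sum.inl i)) (fun i => e' (Sum.inl i)) *
      (A (e (Sum.inr 0)) (e' (Sum.inr 0)) * R (e (Sum.inr 1)) (e' (Sum.inr 1)))

lemma mixD_two (S : (Fin p → Fin N) → (Fin p → Fin N) → ℂ)
    (H : Fin 2 → Matrix (Fin N) (Fin N) ℂ) : mixD S H = L2 S (H 0) (H 1) := by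
  unfold mixD L2
  refine Finset.sum_congr rfl fun e _ => Finset.sum_congr rfl fun e' _ => ?_
  rw [Fin.prod_univ_two]

lemma L2_lin (S : (Fin p → Fin N) → (Fin p → Fin N) → ℂ) (A R : Matrix (Fin N) (Fin N) ℂ) :
    L2 S A R = ∑ a, ∑ b, A a b * L2 S (Matrix.single a b 1) R := by
  have h : ∀ x y, A x y = ∑ a, ∑ b, A a b * (Matrix.single a b (1 : ℂ)) x y := by
    intro x y
    rw [Finset.sum_eq_single x]
    · rw [Finset.sum_eq_single y]
      · rw [Matrix.single_apply_same, mul_one]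
      · intro b _ hb
        rw [Matrix.single_apply_of_ne, mul_zero]
        rintro ⟨_, h⟩
        exact hb h
      · intro h
        exact absurd (Finset.mem_univ _) h
    · intro a _ ha
      refine Finset.sum_eq_zero fun b _ => ?_
      rw [Matrix.single_apply_of_ne, mul_zero]
      rintro ⟨h, _⟩
      exact ha h
    · intro h
      exact absurd (Finset.mem_univ _) h
  let g : ((Fin p ⊕ Fin 2) ≃ Fin N) → ((Fin p ⊕ Fin 2) ≃ Fin N) → Fin N → Fin N → ℂ :=
    fun e e' a b => A a b * (((Equiv.Perm.sign (e.trans e'.symm) : ℤ) : ℂ) *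
      S (fun i => e (Sum.inl i)) (fun i => e' (Sum.inl i)) *
      ((Matrix.single a b (1 : ℂ)) (e (Sum.inr 0)) (e' (Sum.inr 0)) *
        R (e (Sum.inr 1)) (e' (Sum.inr 1))))
  have h1 : L2 S A R = ∑ e, ∑ e', ∑ a, ∑ b, g e e' a b := by
    unfold L2
    refine Finset.sum_congr rfl fun e _ => Finset.sum_congr rfl fun e' _ => ?_
    rw [h (e (Sum.inr 0)) (e' (Sum.inr 0))]
    simp only [Finset.sum_mul, Finset.mul_sum, g]
    refine Finset.sum_congr rfl fun a _ => Finset.sum_congr rfl fun b _ => ?_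
    ring
  have h2 : ∑ a, ∑ b, A a b * L2 S (Matrix.single a b 1) R = ∑ a, ∑ b, ∑ e, ∑ e', g e e' a b := by
    refine Finset.sum_congr rfl fun a _ => Finset.sum_congr rfl fun b _ => ?_
    unfold L2
    simp only [Finset.mul_sum, g]
  rw [h1, h2]
  refine (Finset.sum_congr rfl fun e _ => Finset.sum_comm).trans ?_
  refine Finset.sum_comm.trans ?_
  refine Finset.sum_congr rfl fun a _ => ?_
  refine (Finset.sum_congr rfl fun e _ => Finset.sum_comm).trans ?_
  exact Finset.sum_comm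

lemma L2_smulR (S : (Fin p → Fin N) → (Fin p → Fin N) → ℂ) (A R : Matrix (Fin N) (Fin N) ℂ)
    (c : ℂ) : L2 S A (c • R) = c * L2 S A R := by
  unfold L2
  simp only [Finset.mul_sum, Matrix.smul_apply, smul_eq_mul]
  refine Finset.sum_congr rfl fun e _ => Finset.sum_congr rfl fun e' _ => ?_
  ring

lemma L2_smulS (S : (Fin p → Fin N) → (Fin p → Fin N) → ℂ) (A R : Matrix (Fin N) (Fin N) ℂ)
    (c : ℂ) : L2 (fun I J => c * S I J) A R = c * L2 S A R := by
  unfold L2
  simp only [Finset.mul_sum]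
  refine Finset.sum_congr rfl fun e _ => Finset.sum_congr rfl fun e' _ => ?_
  ring

lemma L2_neg (S : (Fin p → Fin N) → (Fin p → Fin N) → ℂ) (A R : Matrix (Fin N) (Fin N) ℂ) :
    L2 S (-A) R = -L2 S A R := by
  unfold L2
  simp only [← Finset.sum_neg_distrib, Matrix.neg_apply]
  refine Finset.sum_congr rfl fun e _ => Finset.sum_congr rfl fun e' _ => ?_
  ring

/-- the same index twice -/
lemma L2_diag (S : (Fin p → Fin N) → (Fin p → Fin N) → ℂ) (a : Fin N) :
    L2 S (Matrix.single a a 1) (Matrix.single a a 1) = 0 := by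
  unfold L2
  refine Finset.sum_eq_zero fun e _ => Finset.sum_eq_zero fun e' _ => ?_
  by_cases h : e (Sum.inr 0) = a
  · have h2 : ¬ (a = e (Sum.inr 1) ∧ a = e' (Sum.inr 1)) := by
      rintro ⟨h3, _⟩
      have h4 := e.injective (h.trans h3)
      simp at h4
    rw [Matrix.single_apply_of_ne (h := h2)]
    ring
  · have h2 : ¬ (a = e (Sum.inr 0) ∧ a = e' (Sum.inr 0)) := fun h3 => h h3.1.symm
    rw [Matrix.single_apply_of_ne (h := h2)]
    ring

/-- change of basis -/
def tr2 (U H : Matrix (Fin N) (Fin N) ℂ) : Matrix (Fin N) (Fin N) ℂ :=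
  fun a b => ∑ a', ∑ b', U a' a * conj (U b' b) * H a' b'

lemma tr2_eq (U H : Matrix (Fin N) (Fin N) ℂ) :
    tr2 U H = U.transpose * H * U.map conj := by
  funext a b
  unfold tr2
  simp only [Matrix.mul_apply, Matrix.transpose_apply, Matrix.map_apply, Finset.sum_mul]
  rw [Finset.sum_comm]
  refine Finset.sum_congr rfl fun b' _ => Finset.sum_congr rfl fun a' _ => ?_
  ring

lemma det_one {U : Matrix (Fin N) (Fin N) ℂ} (hU : U * U.conjTranspose = 1) :
    U.det * conj U.det = 1 := by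
  have h1 := congrArg Matrix.det hU
  rw [Matrix.det_mul, Matrix.det_conjTranspose, Matrix.det_one] at h1
  exact h1

lemma single_tr2 (U : Matrix (Fin N) (Fin N) ℂ) (c d : Fin N) (a b : Fin N) :
    tr2 U (Matrix.single c d 1) a b = U c a * conj (U d b) := by
  unfold tr2
  rw [Finset.sum_eq_single c]
  · rw [Finset.sum_eq_single d]
    · rw [Matrix.single_apply_same, mul_one]
    · intro b' _ hb
      rw [Matrix.single_apply_of_ne, mul_zero]
      rintro ⟨_, h⟩
      exact hb h.symm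
    · intro h
      exact absurd (Finset.mem_univ _) h
  · intro a' _ ha
    refine Finset.sum_eq_zero fun b' _ => ?_
    rw [Matrix.single_apply_of_ne, mul_zero]
    rintro ⟨h, _⟩
    exact ha h.symm
  · intro h
    exact absurd (Finset.mem_univ _) h

lemma tr2_smul (U H : Matrix (Fin N) (Fin N) ℂ) (c : ℂ) : tr2 U (c • H) = c • tr2 U H := by
  rw [tr2_eq, tr2_eq]
  simp

/-- the invariance of `ω^p` -/
lemma om_inv (hA6 : T_A6) (hD7 : T_D7) (hIE : T_IE) (hp : p < N) {U : Matrix (Fin N) (Fin N) ℂ}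
    (hU : U * U.conjTranspose = 1) {y w : Fin N → ℂ} (hy : y ≠ 0) (hw : w ≠ 0) {c : ℂ}
    (hc : c ≠ 0) (hUy : U.mulVec y = c • w) (A R : Matrix (Fin N) (Fin N) ℂ) :
    L2 (om N p y) (tr2 U A) (tr2 U R) =
      (((‖c‖ ^ (2 * p))⁻¹ : ℝ) : ℂ) * L2 (om N p w) A R := by
  have h1 := (hIE N p hp y hy).2 U hU
  have h2 : om N p y = fun I J => ∑ I' : Fin p → Fin N, ∑ J' : Fin p → Fin N,
      ((((‖c‖ ^ (2 * p))⁻¹ : ℝ) : ℂ) * om N p w I' J') * (∏ l, U (I' l) (I l)) *
        ∏ l, conj (U (J' l) (J l)) := by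
    rw [← h1]
    funext I J
    unfold pull
    rw [ev_lin, jac_lin, hUy]
    refine Finset.sum_congr rfl fun I' _ => Finset.sum_congr rfl fun J' _ => ?_
    rw [(hD7 N p).1.homog c w hc hw]
  have h3 := hA6 (Fin N) p 2 (fun I J => (((‖c‖ ^ (2 * p))⁻¹ : ℝ) : ℂ) * om N p w I J)
    ![A, R] U U
  have h4 : mixD (om N p y) (fun j => tr2 U ((![A, R] : Fin 2 → Matrix (Fin N) (Fin N) ℂ) j)) =
      U.det * conj U.det * mixD (fun I J => (((‖c‖ ^ (2 * p))⁻¹ : ℝ) : ℂ) * om N p w I J)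
        ![A, R] := by
    rw [h2]
    exact h3
  have h5 := mixD_two (om N p y) (fun j => tr2 U ((![A, R] : Fin 2 → Matrix (Fin N) (Fin N) ℂ) j))
  have h6 := mixD_two (fun I J => (((‖c‖ ^ (2 * p))⁻¹ : ℝ) : ℂ) * om N p w I J)
    (![A, R] : Fin 2 → Matrix (Fin N) (Fin N) ℂ)
  rw [h5, h6, det_one hU, one_mul, L2_smulS] at h4
  exact h4

/-- permutation matrices -/
def pm (σ : Equiv.Perm (Fin N)) : Matrix (Fin N) (Fin N) ℂ := fun i j => if σ i = j then 1 else 0

lemma pm_unit (σ : Equiv.Perm (Fin N)) : pm σ * (pm σ).conjTranspose = 1 := by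
  funext i j
  simp only [Matrix.mul_apply, Matrix.conjTranspose_apply, pm]
  rw [Finset.sum_eq_single (σ i)]
  · by_cases h : i = j
    · subst h
      simp
    · have h2 : ¬ σ j = σ i := fun h3 => h (σ.injective h3).symm
      simp [h2, h]
  · intro l _ hl
    simp [Ne.symm hl]
  · intro h
    exact absurd (Finset.mem_univ _) h

lemma diag_unit (a : Fin N) : (Matrix.diagonal fun i : Fin N => if i = a then (-1 : ℂ) else 1) *
    (Matrix.diagonal fun i : Fin N => if i = a then (-1 : ℂ) else 1).conjTranspose = 1 := by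
  rw [Matrix.diagonal_conjTranspose, Matrix.diagonal_mul_diagonal]
  rw [← Matrix.diagonal_one]
  congr 1
  funext i
  by_cases h : i = a
  · simp [h]
  · simp [h]

end algebra

section main

variable {k N : ℕ}

/-- the unit vector number `0` -/
def e0 : Fin (k + 1 + 1) → ℂ := Pi.single 0 1

lemma e0_ne : (e0 : Fin (k + 1 + 1) → ℂ) ≠ 0 := by
  intro h
  have := congrFun h 0
  simp [e0] at this

/-- the coefficient -/
def lam (k : ℕ) : ℂ :=
  L2 (om (k + 1 + 1) k e0) (Matrix.single (Fin.succ 0) (Fin.succ 0) 1) (Matrix.single 0 0 1)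

lemma L2_e0 (hA6 : T_A6) (hD7 : T_D7) (hIE : T_IE)
    {U : Matrix (Fin (k + 1 + 1)) (Fin (k + 1 + 1)) ℂ} (hU : U * U.conjTranspose = 1)
    (hUe : U.mulVec e0 = e0) (A R : Matrix (Fin (k + 1 + 1)) (Fin (k + 1 + 1)) ℂ) :
    L2 (om (k + 1 + 1) k e0) (tr2 U A) (tr2 U R) = L2 (om (k + 1 + 1) k e0) A R := by
  have h := om_inv hA6 hD7 hIE (p := k) (by omega) hU e0_ne e0_ne (c := 1) one_ne_zero
    (by rw [one_smul]; exact hUe) A R
  rw [h]
  simp

lemma L2_off (hA6 : T_A6) (hD7 : T_D7) (hIE : T_IE) (a b : Fin (k + 1 + 1)) (hab : a ≠ b) :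
    L2 (om (k + 1 + 1) k e0) (Matrix.single a b 1) (Matrix.single 0 0 1) = 0 := by
  obtain ⟨c, hc0, hc⟩ : ∃ c : Fin (k + 1 + 1), c ≠ 0 ∧ (c = a ∧ c ≠ b ∨ c = b ∧ c ≠ a) := by
    by_cases ha : a = 0
    · exact ⟨b, fun hb => hab (ha.trans hb.symm), Or.inr ⟨rfl, hab.symm⟩⟩
    · exact ⟨a, ha, Or.inl ⟨rfl, hab⟩⟩
  have hU := diag_unit c
  have hUe : (Matrix.diagonal fun i : Fin (k + 1 + 1) => if i = c then (-1 : ℂ) else 1).mulVec e0 =
      e0 := by
    funext i
    rw [Matrix.mulVec_diagonal]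
    by_cases hi : i = 0
    · subst hi
      simp [Ne.symm hc0, e0]
    · simp [e0, Pi.single_eq_of_ne hi]
  have h := L2_e0 hA6 hD7 hIE hU hUe (Matrix.single a b 1) (Matrix.single 0 0 1)
  have h1 : tr2 (Matrix.diagonal fun i : Fin (k + 1 + 1) => if i = c then (-1 : ℂ) else 1)
      (Matrix.single 0 0 1) = Matrix.single 0 0 1 := by
    funext i j
    rw [single_tr2]
    by_cases hi : i = 0
    · by_cases hj : j = 0
      · subst hi
        subst hj
        simp [Ne.symm hc0]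
      · rw [Matrix.single_apply_of_ne (h := fun h => hj h.2.symm)]
        rw [Matrix.diagonal_apply_ne _ (Ne.symm hj)]
        simp
    · rw [Matrix.single_apply_of_ne (h := fun h => hi h.1.symm)]
      rw [Matrix.diagonal_apply_ne _ (Ne.symm hi)]
      simp
  have h2 : tr2 (Matrix.diagonal fun i : Fin (k + 1 + 1) => if i = c then (-1 : ℂ) else 1)
      (Matrix.single a b 1) = -Matrix.single a b 1 := by
    funext i j
    rw [single_tr2, Matrix.neg_apply]
    by_cases hi : i = a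
    · by_cases hj : j = b
      · subst hi
        subst hj
        rw [Matrix.single_apply_same, Matrix.diagonal_apply_eq, Matrix.diagonal_apply_eq]
        rcases hc with ⟨h3, h4⟩ | ⟨h3, h4⟩
        · subst h3
          simp [Ne.symm h4]
        · subst h3
          simp [Ne.symm h4]
      · rw [Matrix.single_apply_of_ne (h := fun h => hj h.2.symm)]
        rw [Matrix.diagonal_apply_ne _ (Ne.symm hj)]
        simp
    · rw [Matrix.single_apply_of_ne (h := fun h => hi h.1.symm)]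
      rw [Matrix.diagonal_apply_ne _ (Ne.symm hi)]
      simp
  rw [h1, h2, L2_neg] at h
  have h3 := self_eq_neg.1 h.symm
  exact h3

lemma L2_perm (hA6 : T_A6) (hD7 : T_D7) (hIE : T_IE) (a : Fin (k + 1 + 1)) (ha : a ≠ 0) :
    L2 (om (k + 1 + 1) k e0) (Matrix.single a a 1) (Matrix.single 0 0 1) = lam k := by
  set σ : Equiv.Perm (Fin (k + 1 + 1)) := Equiv.swap (Fin.succ 0) a with hσ
  have hσ0 : σ 0 = 0 := Equiv.swap_apply_of_ne_of_ne (Fin.succ_ne_zero 0).symm (Ne.symm ha)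
  have hUe : (pm σ).mulVec e0 = e0 := by
    funext i
    simp only [Matrix.mulVec, dotProduct, pm, e0]
    rw [Finset.sum_eq_single 0]
    · by_cases hi : i = 0
      · subst hi
        simp [hσ0]
      · have h2 : ¬ σ i = 0 := by
          intro h3
          rw [← hσ0] at h3
          exact hi (σ.injective h3)
        simp [h2, Pi.single_eq_of_ne hi]
    · intro l _ hl
      simp [Pi.single_eq_of_ne hl]
    · intro h
      exact absurd (Finset.mem_univ _) h
  have h := L2_e0 hA6 hD7 hIE (pm_unit σ) hUe (Matrix.single (Fin.succ 0) (Fin.succ 0) 1)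
    (Matrix.single 0 0 1)
  have h1 : tr2 (pm σ) (Matrix.single 0 0 1) = Matrix.single 0 0 1 := by
    funext i j
    rw [single_tr2]
    simp only [pm, hσ0, Matrix.single_apply]
    by_cases hi : 0 = i
    · by_cases hj : 0 = j
      · simp [hi.symm, hj.symm]
      · simp [hj]
    · simp [hi]
  have h2 : tr2 (pm σ) (Matrix.single (Fin.succ 0) (Fin.succ 0) 1) = Matrix.single a a 1 := by
    funext i j
    rw [single_tr2]
    have h3 : σ (Fin.succ 0) = a := Equiv.swap_apply_left _ _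
    simp only [pm, h3, Matrix.single_apply]
    by_cases hi : a = i
    · by_cases hj : a = j
      · simp [hi.symm, hj.symm]
      · simp [hj]
    · simp [hi]
  rw [h1, h2] at h
  rw [h]
  rfl

lemma L2_main (hA6 : T_A6) (hD7 : T_D7) (hIE : T_IE)
    (H : Matrix (Fin (k + 1 + 1)) (Fin (k + 1 + 1)) ℂ) :
    L2 (om (k + 1 + 1) k e0) H (Matrix.single 0 0 1) = lam k * (H.trace - H 0 0) := by
  rw [L2_lin]
  have h1 : ∀ a, ∑ b, H a b * L2 (om (k + 1 + 1) k e0) (Matrix.single a b 1)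
      (Matrix.single 0 0 1) = if a = 0 then 0 else lam k * H a a := by
    intro a
    rw [Finset.sum_eq_single a]
    · by_cases ha : a = 0
      · subst ha
        rw [L2_diag]
        simp
      · rw [L2_perm hA6 hD7 hIE a ha, if_neg ha]
        ring
    · intro b _ hb
      rw [L2_off hA6 hD7 hIE a b (Ne.symm hb), mul_zero]
    · intro h
      exact absurd (Finset.mem_univ _) h
  rw [Finset.sum_congr rfl fun a _ => h1 a]
  have h2 : H.trace = H 0 0 + ∑ i : Fin (k + 1), H i.succ i.succ := by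
    unfold Matrix.trace
    rw [Fin.sum_univ_succ]
    rfl
  rw [h2, add_sub_cancel_left, Fin.sum_univ_succ, Finset.mul_sum, if_pos rfl, zero_add]
  refine Finset.sum_congr rfl fun i _ => ?_
  rw [if_neg (Fin.succ_ne_zero i)]

lemma key (hA6 : T_A6) (hD7 : T_D7) (hIE : T_IE) (y : Fin (k + 1 + 1) → ℂ) (hy : y ≠ 0)
    (H : Matrix (Fin (k + 1 + 1)) (Fin (k + 1 + 1)) ℂ) :
    L2 (om (k + 1 + 1) k y) H (Rad y) = (lam k / 4) * (((nsq y : ℝ) : ℂ) ^ (k + 1))⁻¹ *
      (H.trace - (∑ a, ∑ b, y a * conj (y b) * H a b) / ((nsq y : ℝ) : ℂ)) := by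
  obtain ⟨U, c, hU, hc, hUy⟩ := exists_unitary hy (e0_ne (k := k))
  have hU' : U.conjTranspose * U = 1 := mul_eq_one_comm.mp hU
  have hya : ∀ a, y a = conj (U 0 a) * c := by
    intro a
    have h1 : U.conjTranspose.mulVec (U.mulVec y) = y := by
      rw [Matrix.mulVec_mulVec, hU', Matrix.one_mulVec]
    rw [← h1, hUy]
    simp only [Matrix.mulVec, dotProduct, Pi.smul_apply, smul_eq_mul]
    rw [Finset.sum_eq_single 0]
    · simp [e0]
    · intro i _ hi
      simp [e0, Pi.single_eq_of_ne hi]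
    · intro h
      exact absurd (Finset.mem_univ _) h
  have hn : nsq y = ‖c‖ ^ 2 := by
    rw [← nsq_unitary hU y, hUy]
    unfold nsq
    rw [Finset.sum_eq_single 0]
    · simp [e0]
    · intro i _ hi
      simp [e0, Pi.single_eq_of_ne hi]
    · intro h
      exact absurd (Finset.mem_univ _) h
  have hnc : ((nsq y : ℝ) : ℂ) = c * conj c := by
    rw [hn, Complex.mul_conj, Complex.normSq_eq_norm_sq]
  have hn0 : ((nsq y : ℝ) : ℂ) ≠ 0 := by exact_mod_cast (nsq_pos hy).ne'
  have hVW : U.transpose * U.map conj = 1 := by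
    have h1 := congrArg Matrix.transpose hU'
    rw [Matrix.transpose_mul, Matrix.transpose_one] at h1
    exact h1
  have hWV : U.map conj * U.transpose = 1 := mul_eq_one_comm.mp hVW
  set H' : Matrix (Fin (k + 1 + 1)) (Fin (k + 1 + 1)) ℂ := U.map conj * H * U.transpose with hH'
  have hH : tr2 U H' = H := by
    rw [tr2_eq, hH']
    calc U.transpose * (U.map conj * H * U.transpose) * U.map conj =
        (U.transpose * U.map conj) * H * (U.transpose * U.map conj) := by
          simp only [Matrix.mul_assoc]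
      _ = H := by rw [hVW, one_mul, mul_one]
  have hR : Rad y = (1 / (4 * ((nsq y : ℝ) : ℂ))) • tr2 U (Matrix.single 0 0 1) := by
    funext a b
    rw [Matrix.smul_apply, single_tr2, smul_eq_mul]
    unfold Rad
    rw [hya a, hya b, map_mul, Complex.conj_conj]
    have h1 : U 0 a * conj c * (conj (U 0 b) * c) = U 0 a * conj (U 0 b) * ((nsq y : ℝ) : ℂ) := by
      rw [hnc]
      ring
    rw [h1]
    field_simp
  have hinv := om_inv hA6 hD7 hIE (p := k) (by omega) hU hy e0_ne hc hUy H' (Matrix.single 0 0 1)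
  rw [hH] at hinv
  have h00 : H' 0 0 = (∑ a, ∑ b, y a * conj (y b) * H a b) / ((nsq y : ℝ) : ℂ) := by
    rw [hH']
    simp only [Matrix.mul_apply, Matrix.transpose_apply, Matrix.map_apply, Finset.sum_mul,
      Finset.sum_div]
    rw [Finset.sum_comm]
    refine Finset.sum_congr rfl fun a _ => Finset.sum_congr rfl fun b _ => ?_
    rw [hya a, hya b, map_mul, Complex.conj_conj]
    rw [eq_div_iff hn0, hnc]
    ring
  have htr : H'.trace = H.trace := by
    rw [hH', Matrix.trace_mul_cycle, hVW, one_mul]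
  have hck : ((((‖c‖ ^ (2 * k))⁻¹ : ℝ)) : ℂ) = (((nsq y : ℝ) : ℂ) ^ k)⁻¹ := by
    rw [hn, pow_mul]
    push_cast
    rfl
  rw [hR, L2_smulR, hinv, L2_main hA6 hD7 hIE, htr, h00, hck]
  rw [pow_succ]
  field_simp

/-! ### The Hessian of a logarithm of a weighted sum of squares -/

/-- the weighted sum of squares -/
def wq (w : Fin N → ℝ) (z : Fin N → ℂ) : ℝ := ∑ i, w i * ‖z i‖ ^ 2

lemma wq_smooth (w : Fin N → ℝ) : ContDiff ℝ ∞ (wq w) := by
  unfold wq
  refine ContDiff.sum fun i _ => ?_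
  exact contDiff_const.mul ((contDiff_apply ℝ ℂ i).norm_sq ℝ)

lemma wq_d (w : Fin N → ℝ) (z v : Fin N → ℂ) :
    fderiv ℝ (cx (wq w)) z v = ∑ i, (w i : ℂ) * (z i * conj (v i) + conj (z i) * v i) := by
  have e : cx (wq w) = fun x : Fin N → ℂ => ∑ i, (w i : ℂ) * (x i * conj (x i)) := by
    funext x
    unfold cx wq
    push_cast
    refine Finset.sum_congr rfl fun i _ => ?_
    rw [Complex.mul_conj, Complex.normSq_eq_norm_sq]
    push_cast
    rfl
  rw [e]
  have h1 : ∀ i, HasFDerivAt (fun x : Fin N → ℂ => x i)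
      (ContinuousLinearMap.proj (R := ℝ) (φ := fun _ : Fin N => ℂ) i) z := fun i =>
    (ContinuousLinearMap.proj (R := ℝ) (φ := fun _ : Fin N => ℂ) i).hasFDerivAt
  have h2 : ∀ i, HasFDerivAt (fun x : Fin N → ℂ => conj (x i))
      ((Complex.conjCLE : ℂ →L[ℝ] ℂ).comp
        (ContinuousLinearMap.proj (R := ℝ) (φ := fun _ : Fin N => ℂ) i)) z := fun i =>
    ((Complex.conjCLE : ℂ →L[ℝ] ℂ).hasFDerivAt).comp z (h1 i)
  have h3 := HasFDerivAt.fun_sum (u := Finset.univ)
    (fun i _ => ((h1 i).mul (h2 i)).const_mul ((w i : ℝ) : ℂ))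
  have h4 : HasFDerivAt (fun x : Fin N → ℂ => ∑ i, (w i : ℂ) * (x i * conj (x i))) _ z := h3
  rw [h4.fderiv]
  simp
  refine Finset.sum_congr rfl fun i _ => ?_
  ring

lemma wq_wd (w : Fin N → ℝ) (a : Fin N) (z : Fin N → ℂ) :
    wd a (cx (wq w)) z = (w a : ℂ) * conj (z a) := by
  unfold wd
  rw [wq_d, wq_d]
  have e1 : ∑ i, (w i : ℂ) * (z i * conj ((Pi.single a (1 : ℂ) : Fin N → ℂ) i) +
      conj (z i) * (Pi.single a (1 : ℂ) : Fin N → ℂ) i) = (w a : ℂ) * (z a + conj (z a)) := by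
    rw [Finset.sum_eq_single a]
    · simp
    · intro b _ hb
      simp [Pi.single_eq_of_ne hb]
    · simp
  have e2 : ∑ i, (w i : ℂ) * (z i * conj ((Pi.single a Complex.I : Fin N → ℂ) i) +
      conj (z i) * (Pi.single a Complex.I : Fin N → ℂ) i) = (w a : ℂ) * (-(z a * Complex.I) +
        conj (z a) * Complex.I) := by
    rw [Finset.sum_eq_single a]
    · simp
    · intro b _ hb
      simp [Pi.single_eq_of_ne hb]
    · simp
  rw [e1, e2]
  linear_combination ((w a : ℂ) * (z a - conj (z a)) / 2) * Complex.I_mul_I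

lemma wq_wdb (w : Fin N → ℝ) (a : Fin N) (z : Fin N → ℂ) :
    wdb a (cx (wq w)) z = (w a : ℂ) * z a := by
  unfold wdb
  rw [wq_d, wq_d]
  have e1 : ∑ i, (w i : ℂ) * (z i * conj ((Pi.single a (1 : ℂ) : Fin N → ℂ) i) +
      conj (z i) * (Pi.single a (1 : ℂ) : Fin N → ℂ) i) = (w a : ℂ) * (z a + conj (z a)) := by
    rw [Finset.sum_eq_single a]
    · simp
    · intro b _ hb
      simp [Pi.single_eq_of_ne hb]
    · simp
  have e2 : ∑ i, (w i : ℂ) * (z i * conj ((Pi.single a Complex.I : Fin N → ℂ) i) +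
      conj (z i) * (Pi.single a Complex.I : Fin N → ℂ) i) = (w a : ℂ) * (-(z a * Complex.I) +
        conj (z a) * Complex.I) := by
    rw [Finset.sum_eq_single a]
    · simp
    · intro b _ hb
      simp [Pi.single_eq_of_ne hb]
    · simp
  rw [e1, e2]
  linear_combination (-((w a : ℂ) * (z a - conj (z a))) / 2) * Complex.I_mul_I

lemma wq_hess (w : Fin N → ℝ) (z : Fin N → ℂ) (a b : Fin N) :
    hessR (wq w) z a b = if a = b then (w a : ℂ) else 0 := by
  have e : (fun x : Fin N → ℂ => wdb b (fun x => ((wq w x : ℝ) : ℂ)) x) =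
      fun x => (w b : ℂ) * x b := by
    funext x
    exact wq_wdb w b x
  unfold hessR hess
  rw [e]
  have h1 : ∀ v : Fin N → ℂ, fderiv ℝ (fun x : Fin N → ℂ => (w b : ℂ) * x b) z v =
      (w b : ℂ) * v b := by
    intro v
    have h : HasFDerivAt (fun x : Fin N → ℂ => x b)
        (ContinuousLinearMap.proj (R := ℝ) (φ := fun _ : Fin N => ℂ) b) z :=
      (ContinuousLinearMap.proj (R := ℝ) (φ := fun _ : Fin N => ℂ) b).hasFDerivAt
    rw [(h.const_mul ((w b : ℝ) : ℂ)).fderiv]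
    rfl
  unfold wd
  rw [h1, h1]
  by_cases h : a = b
  · subst h
    simp only [Pi.single_eq_same, if_true, mul_one]
    linear_combination (-(w a : ℂ) / 2) * Complex.I_mul_I
  · simp [h]

lemma log_hess (hW7 : T_W7) (w : Fin N → ℝ) (z : Fin N → ℂ) (hT : 0 < wq w z) (a b : Fin N) :
    hessR (fun x => (1 / 2) * Real.log (wq w x)) z a b =
      (((1 / 2) * (wq w z)⁻¹ : ℝ) : ℂ) * (if a = b then (w a : ℂ) else 0) +
      ((-(1 / 2) * ((wq w z) ^ 2)⁻¹ : ℝ) : ℂ) * (((w a : ℂ) * conj (z a)) * ((w b : ℂ) * z b)) := by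
  have hφ : ContDiffAt ℝ 2 (wq w) z :=
    (wq_smooth w).contDiffAt.of_le Pool.Agent.H80.EQ.w9_two_le
  have hχ : ContDiffAt ℝ 2 (fun t : ℝ => (1 / 2) * Real.log t) (wq w z) :=
    contDiffAt_const.mul (Real.contDiffAt_log.2 hT.ne')
  have h := (hW7 (Fin N) (wq w) (wq w) (fun t : ℝ => (1 / 2) * Real.log t) z hφ hφ hχ).2.2.1
  rw [h, Pool.Agent.H80.EQ.w9_deriv2, Pool.Agent.H80.EQ.w9_deriv1]
  rw [Matrix.add_apply, Matrix.smul_apply, Matrix.smul_apply, wq_hess, smul_eq_mul, smul_eq_mul]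
  unfold out gd gdb
  rw [wq_wd, wq_wdb]

/-- the trace of the Hessian -/
lemma log_trace (hW7 : T_W7) (w : Fin N → ℝ) (z : Fin N → ℂ) (hT : 0 < wq w z) :
    (hessR (fun x => (1 / 2) * Real.log (wq w x)) z).trace =
      (((1 / 2) * ((∑ i, w i) / wq w z - (∑ i, w i ^ 2 * ‖z i‖ ^ 2) / (wq w z) ^ 2) : ℝ) : ℂ) := by
  unfold Matrix.trace
  have h1 : ∀ a, Matrix.diag (hessR (fun x => (1 / 2) * Real.log (wq w x)) z) a =
      (((1 / 2) * (w a / wq w z - w a ^ 2 * ‖z a‖ ^ 2 / (wq w z) ^ 2) : ℝ) : ℂ) := by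
    intro a
    rw [Matrix.diag_apply, log_hess hW7 w z hT, if_pos rfl]
    have h2 : (w a : ℂ) * conj (z a) * ((w a : ℂ) * z a) = ((w a ^ 2 * ‖z a‖ ^ 2 : ℝ) : ℂ) := by
      have h3 : conj (z a) * z a = ((‖z a‖ ^ 2 : ℝ) : ℂ) := by
        rw [mul_comm, Complex.mul_conj, Complex.normSq_eq_norm_sq]
      calc (w a : ℂ) * conj (z a) * ((w a : ℂ) * z a) = (w a : ℂ) ^ 2 * (conj (z a) * z a) := by
            ring
        _ = _ := by
          rw [h3]
          push_cast
          ring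
    rw [h2]
    push_cast
    field_simp
    ring
  rw [Finset.sum_congr rfl fun a _ => h1 a]
  rw [← Complex.ofReal_sum]
  congr 1
  rw [← Finset.mul_sum, Finset.sum_sub_distrib, Finset.sum_div, Finset.sum_div]

/-- the value of the Hessian on the radial direction -/
lemma log_rad (hW7 : T_W7) (w : Fin N → ℝ) (z : Fin N → ℂ) (hT : 0 < wq w z) :
    ∑ a, ∑ b, z a * conj (z b) * hessR (fun x => (1 / 2) * Real.log (wq w x)) z a b = 0 := by
  have h0 : ∑ a, (w a : ℂ) * (z a * conj (z a)) = ((wq w z : ℝ) : ℂ) := by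
    unfold wq
    push_cast
    refine Finset.sum_congr rfl fun i _ => ?_
    rw [Complex.mul_conj, Complex.normSq_eq_norm_sq]
    push_cast
    rfl
  have hT0 : ((wq w z : ℝ) : ℂ) ≠ 0 := by exact_mod_cast hT.ne'
  have h1 : ∀ a b, z a * conj (z b) * hessR (fun x => (1 / 2) * Real.log (wq w x)) z a b =
      (((1 / 2) * (wq w z)⁻¹ : ℝ) : ℂ) * (if a = b then (w a : ℂ) * (z a * conj (z a)) else 0) +
      ((-(1 / 2) * ((wq w z) ^ 2)⁻¹ : ℝ) : ℂ) * (((w a : ℂ) * (z a * conj (z a))) *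
        ((w b : ℂ) * (z b * conj (z b)))) := by
    intro a b
    rw [log_hess hW7 w z hT]
    by_cases h : a = b
    · subst h
      simp only [if_true]
      ring
    · simp only [h, if_false]
      ring
  rw [Finset.sum_congr rfl fun a _ => Finset.sum_congr rfl fun b _ => h1 a b]
  simp only [Finset.sum_add_distrib, ← Finset.mul_sum, Finset.sum_ite_eq, Finset.mem_univ, if_true]
  rw [← Finset.sum_mul, h0]
  push_cast
  field_simp
  ring

/-- the weights -/
def wt0 (k : ℕ) (δ : ℝ) : Fin (k + 1 + 1) → ℝ := fun i => (if i = 0 then 1 else 0) + δ ^ 2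

lemma wq_wt0 (δ : ℝ) (z : Fin (k + 1 + 1) → ℂ) : wq (wt0 k δ) z = ‖z 0‖ ^ 2 + δ ^ 2 * nsq z := by
  unfold wq wt0 nsq
  simp only [add_mul, Finset.sum_add_distrib, Finset.mul_sum, ite_mul, one_mul, zero_mul,
    Finset.sum_ite_eq', Finset.mem_univ, if_true]

lemma sum_wt0 (δ : ℝ) : ∑ i, wt0 k δ i = 1 + (k + 2) * δ ^ 2 := by
  unfold wt0
  simp only [Finset.sum_add_distrib, Finset.sum_ite_eq', Finset.mem_univ, if_true,
    Finset.sum_const, Finset.card_univ, Fintype.card_fin, nsmul_eq_mul]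
  push_cast
  ring

lemma sum_wt0_sq (δ : ℝ) (z : Fin (k + 1 + 1) → ℂ) : ∑ i, wt0 k δ i ^ 2 * ‖z i‖ ^ 2 =
    (1 + 2 * δ ^ 2) * ‖z 0‖ ^ 2 + δ ^ 4 * nsq z := by
  have h1 : ∀ i, wt0 k δ i ^ 2 * ‖z i‖ ^ 2 =
      (if i = 0 then (1 + 2 * δ ^ 2) * ‖z i‖ ^ 2 else 0) + δ ^ 4 * ‖z i‖ ^ 2 := by
    intro i
    unfold wt0
    by_cases h : i = 0
    · simp only [h, if_true]
      ring
    · simp only [h, if_false]
      ring
  rw [Finset.sum_congr rfl fun i _ => h1 i]
  unfold nsq
  simp only [Finset.sum_add_distrib, Finset.mul_sum, Finset.sum_ite_eq', Finset.mem_univ, if_true]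

lemma Q_eq (S : (Fin k → Fin (k + 1 + 1)) → (Fin k → Fin (k + 1 + 1)) → ℂ)
    (H R : Matrix (Fin (k + 1 + 1)) (Fin (k + 1 + 1)) ℂ) (u : Fin 0 → Matrix (Fin (k + 1 + 1))
      (Fin (k + 1 + 1)) ℂ) :
    mixD (wedge S H) (Fin.snoc (α := fun _ => Matrix (Fin (k + 1 + 1)) (Fin (k + 1 + 1)) ℂ) u R) =
      L2 S H R := by
  rw [Pool.Agent.H60.EQD.pf_A3, mixD_two]
  rfl

theorem pf_EA3 (hL5 : T_L5) (hD6 : T_D6) (hD7 : T_D7) (hW9 : T_W9) (hW7 : T_W7) (hA6 : T_A6)
    (hIE : T_IE) (_hS5 : T_S5) : T_EA3 := by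
  intro k
  -- the value of Q
  have hval : ∀ (H : Matrix (Fin (k + 1 + 1)) (Fin (k + 1 + 1)) ℂ) (y : Fin (k + 1 + 1) → ℂ)
      (t : ℝ), y ≠ 0 → H.trace = (t : ℂ) → ∑ a, ∑ b, y a * conj (y b) * H a b = 0 →
      (mixD (wedge (om (k + 1 + 1) k y) H)
        (Fin.snoc (α := fun _ => Matrix (Fin (k + 1 + 1)) (Fin (k + 1 + 1)) ℂ)
        (fun j : Fin 0 => hessR ((fun _ => ell) j) y) (Rad y))).re =
        (lam k).re / 4 * ((nsq y ^ (k + 1))⁻¹ * t) := by
    intro H y t hy ht h0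
    rw [Q_eq, key hA6 hD7 hIE y hy H, ht, h0, zero_div, sub_zero]
    have : lam k / 4 * (((nsq y : ℝ) : ℂ) ^ (k + 1))⁻¹ * (t : ℂ) =
        lam k * (((1 / 4) * ((nsq y ^ (k + 1))⁻¹ * t) : ℝ) : ℂ) := by
      push_cast
      ring
    rw [this, Complex.re_mul_ofReal]
    ring
  -- positivity
  have hpos : 0 < (lam k).re := by
    by_contra hneg
    push Not at hneg
    have hm := ((hD7 (k + 1 + 1) (k + 1)).2 0 rfl).1
    have hle : mass 0 (om (k + 1 + 1) (k + 1)) ≤ 0 := by
      unfold mass pair Iint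
      refine integral_nonpos fun z => ?_
      show 1 * Q (om (k + 1 + 1) (k + 1)) (fun _ : Fin 0 => ell) z ≤ 0
      rw [one_mul]
      by_cases hz : z = 0
      · subst hz
        unfold Q
        have hR : Rad (0 : Fin (k + 1 + 1) → ℂ) = 0 := by
          funext a b
          simp [Rad]
        rw [hR]
        have : mixD (om (k + 1 + 1) (k + 1) 0)
            (Fin.snoc (α := fun _ => Matrix (Fin (k + 1 + 1)) (Fin (k + 1 + 1)) ℂ)
            (fun j : Fin 0 => hessR ((fun _ => ell) j) 0) 0) = 0 := by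
          unfold mixD
          refine Finset.sum_eq_zero fun e _ => Finset.sum_eq_zero fun e' _ => ?_
          rw [Finset.prod_eq_zero (Finset.mem_univ (Fin.last 0))]
          · rw [mul_zero]
          · rw [Fin.snoc_last]
            rfl
        rw [this]
        simp
      · have hn := nsq_pos hz
        have h9 := (hW9 (Fin (k + 1 + 1))).2 z hz
        have hn0 : ((nsq z : ℝ) : ℂ) ≠ 0 := by exact_mod_cast hn.ne'
        have htr : (hessR ell z).trace = (((k + 1) / (2 * nsq z) : ℝ) : ℂ) := by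
          unfold Matrix.trace
          have e1 : ∀ a, Matrix.diag (hessR ell z) a =
              (1 / 2) * (1 / ((nsq z : ℝ) : ℂ) - conj (z a) * z a / ((nsq z : ℝ) : ℂ) ^ 2) := by
            intro a
            rw [Matrix.diag_apply, h9.2.2.1, if_pos rfl]
          rw [Finset.sum_congr rfl fun a _ => e1 a, ← Finset.mul_sum, Finset.sum_sub_distrib,
            ← Finset.sum_div, ← Finset.sum_div, ← nsq_eq z]
          simp only [Finset.sum_const, Finset.card_univ, Fintype.card_fin, nsmul_eq_mul]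
          push_cast
          field_simp
          ring
        have hrad : ∑ a, ∑ b, z a * conj (z b) * hessR ell z a b = 0 := by
          have e2 : ∀ a b, z a * conj (z b) * hessR ell z a b =
              (1 / 2) * ((if a = b then conj (z a) * z a else 0) / ((nsq z : ℝ) : ℂ) -
                (conj (z a) * z a) * (conj (z b) * z b) / ((nsq z : ℝ) : ℂ) ^ 2) := by
            intro a b
            rw [h9.2.2.1]
            by_cases h : a = b
            · subst h
              simp only [if_true]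
              ring
            · simp only [h, if_false]
              ring
          rw [Finset.sum_congr rfl fun a _ => Finset.sum_congr rfl fun b _ => e2 a b]
          simp only [← Finset.mul_sum, Finset.sum_sub_distrib, ← Finset.sum_div,
            Finset.sum_ite_eq, Finset.mem_univ, if_true]
          rw [← Finset.sum_mul, ← nsq_eq z]
          field_simp
          ring
        have hq := hval (hessR ell z) z _ hz htr hrad
        have : Q (om (k + 1 + 1) (k + 1)) (fun _ : Fin 0 => ell) z =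
            (lam k).re / 4 * ((nsq z ^ (k + 1))⁻¹ * ((k + 1) / (2 * nsq z))) := hq
        rw [this]
        refine mul_nonpos_of_nonpos_of_nonneg (by linarith) (by positivity)
    linarith
  refine ⟨(lam k).re / 8, (lam k).re / 8 * (2 * k + 2), by positivity, by positivity, ?_⟩
  intro δ hδ hδ1
  constructor
  · have hP : Pot (wH (k := k + 1) δ) := by
      have h := hL5 (k + 1 + 1) 1 (MvPolynomial.X 0) δ le_rfl (MvPolynomial.isHomogeneous_X _ _) hδ
      have e : (fun z : Fin (k + 1 + 1) → ℂ => (1 / (2 * ((1 : ℕ) : ℝ))) *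
          Real.log (‖MvPolynomial.eval z (MvPolynomial.X 0)‖ ^ 2 + δ ^ 2 * nsq z ^ 1)) = wH δ := by
        funext z
        unfold wH
        rw [MvPolynomial.eval_X, pow_one]
        norm_num
      rw [e] at h
      exact h
    exact hD6 (k + 1 + 1) k (om (k + 1 + 1) k) (wH δ) (hD7 (k + 1 + 1) k).1 hP
  · intro y hy
    have hn := nsq_pos hy
    have hT : 0 < wq (wt0 k δ) y := by
      rw [wq_wt0]
      positivity
    have hw : (wH δ : (Fin (k + 1 + 1) → ℂ) → ℝ) =
        fun x => (1 / 2) * Real.log (wq (wt0 k δ) x) := by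
      funext x
      rw [wq_wt0]
      rfl
    have htr := log_trace hW7 (wt0 k δ) y hT
    have hrad := log_rad hW7 (wt0 k δ) y hT
    rw [← hw] at htr hrad
    have hq := hval (hessR (wH δ) y) y _ hy htr hrad
    have hQ : Q (tauH (k := k) δ) (fun _ : Fin 0 => ell) y = (lam k).re / 4 *
        ((nsq y ^ (k + 1))⁻¹ * ((1 / 2) * ((∑ i, wt0 k δ i) / wq (wt0 k δ) y -
          (∑ i, wt0 k δ i ^ 2 * ‖y i‖ ^ 2) / (wq (wt0 k δ) y) ^ 2))) := hq
    rw [hQ, sum_wt0, sum_wt0_sq]
    set n := nsq y with hndef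
    set T := wq (wt0 k δ) y with hTdef
    have hTe : T = ‖y 0‖ ^ 2 + δ ^ 2 * n := wq_wt0 δ y
    have hy0 : ‖y 0‖ ^ 2 ≤ n :=
      Finset.single_le_sum (f := fun i => ‖y i‖ ^ 2) (fun i _ => by positivity) (Finset.mem_univ 0)
    have hform : (lam k).re / 4 * ((n ^ (k + 1))⁻¹ * ((1 / 2) * ((1 + (k + 2) * δ ^ 2) / T -
          ((1 + 2 * δ ^ 2) * ‖y 0‖ ^ 2 + δ ^ 4 * n) / T ^ 2))) =
        (lam k).re / 8 * ((k * ‖y 0‖ ^ 2 + n + (k + 1) * δ ^ 2 * n) / n) *
          (δ ^ 2 / (T ^ 2 * n ^ k)) := by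
      have e1 : (1 + (k + 2) * δ ^ 2) / T - ((1 + 2 * δ ^ 2) * ‖y 0‖ ^ 2 + δ ^ 4 * n) / T ^ 2 =
          δ ^ 2 * (k * ‖y 0‖ ^ 2 + n + (k + 1) * δ ^ 2 * n) / T ^ 2 := by
        rw [div_sub_div _ _ hT.ne' (pow_pos hT 2).ne', div_eq_div_iff (by positivity)
          (by positivity)]
        rw [hTe]
        ring
      rw [e1, pow_succ]
      field_simp
      ring
    have hH : hH (k := k) δ y = δ ^ 2 / (T ^ 2 * n ^ k) := by
      unfold Pool.Agent.H92.EHD.hH
      rw [← hndef]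
      have e2 : ‖y 0‖ ^ 2 / n + δ ^ 2 = T / n := by
        rw [hTe]
        field_simp
      rw [e2, pow_add]
      field_simp
    rw [hform, hH]
    have hX : 0 ≤ δ ^ 2 / (T ^ 2 * n ^ k) := by positivity
    have hδ2 : δ ^ 2 ≤ 1 := by nlinarith
    have hk : (0 : ℝ) ≤ k := Nat.cast_nonneg k
    have hr1 : 1 ≤ (k * ‖y 0‖ ^ 2 + n + (k + 1) * δ ^ 2 * n) / n := by
      rw [le_div_iff₀ hn]
      have : 0 ≤ (k : ℝ) * ‖y 0‖ ^ 2 + (k + 1) * δ ^ 2 * n := by positivity
      linarith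
    have hr2 : (k * ‖y 0‖ ^ 2 + n + (k + 1) * δ ^ 2 * n) / n ≤ 2 * k + 2 := by
      rw [div_le_iff₀ hn]
      have h1 : (k : ℝ) * ‖y 0‖ ^ 2 ≤ k * n := mul_le_mul_of_nonneg_left hy0 hk
      have h2 : ((k : ℝ) + 1) * δ ^ 2 * n ≤ (k + 1) * 1 * n := by gcongr
      nlinarith
    constructor
    · refine mul_le_mul_of_nonneg_right ?_ hX
      nlinarith
    · refine mul_le_mul_of_nonneg_right ?_ hX
      exact mul_le_mul_of_nonneg_left hr2 (by positivity)

end main

end

end Pool.Agent.H80.EHD
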